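import Pool.Agent.H74.G.R_seed8.W564.SC.Defs3
set_option autoImplicit false

/-!
# Part CHN of project SC
-/

namespace Pool.Agent.W131.SC

open Pool.Agent.H718R2.G Pool.Agent.W564.SC

theorem cross {D m : ℕ} {Λ : ℝ} {P : ℤ → Prop} {v : ℤ → V D} {A : ℤ → V D →L[ℝ] V D}
    (h : AC D m Λ P v A) (a b : ℤ) (ha : 0 < a ∧ a ≤ m ∧ P a) (hb : 0 < b ∧ b ≤ m ∧ P b)
    (sa : ‖v a‖ ≤ Λ⁻¹ ^ 2) (sb : ‖v b‖ ≤ Λ⁻¹ ^ 2) (ta : ‖v a‖ ≤ 1 / 8) (tb : ‖v b‖ ≤ 1 / 8) :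
    ‖A a (v b) - v b‖ ≤ (Λ + 1) * ‖v a‖ + Λ * (‖v a‖ ^ 2 + ‖v b‖ ^ 2) := by
  have la : |a| ≤ 2 * (m : ℤ) := by rw [abs_of_pos ha.1]; have := ha.1; have := ha.2.1; omega
  have lb : |b| ≤ 2 * (m : ℤ) := by rw [abs_of_pos hb.1]; have := hb.1; have := hb.2.1; omega
  have lab : |a + b| ≤ 2 * (m : ℤ) := by
    rw [abs_of_pos (add_pos ha.1 hb.1)]; have := ha.2.1; have := hb.2.1; omega
  obtain ⟨-, -, e1, -⟩ := h.add a b la lb lab hb.2.2 sb (Or.inl ⟨ha.2.2, ta⟩)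
  obtain ⟨-, -, e2, -⟩ := h.add b a lb la (by rw [add_comm]; exact lab) ha.2.2 sa
    (Or.inl ⟨hb.2.2, tb⟩)
  rw [add_comm b a] at e2
  have e3 : ‖A b‖ ≤ Λ := h.bd b lb hb.2.2
  have e4 : ‖A b (v a)‖ ≤ Λ * ‖v a‖ :=
    ((A b).le_opNorm (v a)).trans (mul_le_mul_of_nonneg_right e3 (norm_nonneg _))
  have key : A a (v b) - v b = (A b (v a) - v a) + (v (a + b) - v b - A b (v a)) -
      (v (a + b) - v a - A a (v b)) := by abel
  rw [key]
  calc ‖(A b (v a) - v a) + (v (a + b) - v b - A b (v a)) - (v (a + b) - v a - A a (v b))‖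
      ≤ ‖(A b (v a) - v a) + (v (a + b) - v b - A b (v a))‖ + ‖v (a + b) - v a - A a (v b)‖ :=
        norm_sub_le _ _
    _ ≤ (‖A b (v a) - v a‖ + ‖v (a + b) - v b - A b (v a)‖) +
        ‖v (a + b) - v a - A a (v b)‖ := by gcongr; exact norm_add_le _ _
    _ ≤ ((‖A b (v a)‖ + ‖v a‖) + ‖v (a + b) - v b - A b (v a)‖) +
        ‖v (a + b) - v a - A a (v b)‖ := by gcongr; exact norm_sub_le _ _
    _ ≤ ((Λ * ‖v a‖ + ‖v a‖) + Λ * ‖v a‖ ^ 2) + Λ * ‖v b‖ ^ 2 := by gcongr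
    _ = (Λ + 1) * ‖v a‖ + Λ * (‖v a‖ ^ 2 + ‖v b‖ ^ 2) := by ring

theorem chn (h : S_LB) (h2 : S_IND) : S_CHN := by
  intro D m Λ P v A hAC h16 hD hm p hp hdec h0 hgrow hsm
  have hΛ0 : 0 < Λ := by linarith
  set ε : ℝ := Λ⁻¹ ^ (40 * (D + 1) + 5) with hε
  have hi0 : 0 ≤ Λ⁻¹ := inv_nonneg.2 hΛ0.le
  have hi1 : Λ⁻¹ ≤ 1 := inv_le_one_of_one_le₀ (by linarith)
  have hi16 : Λ⁻¹ ≤ 1 / 16 := by
    rw [inv_le_comm₀ hΛ0 (by norm_num)]; norm_num; exact h16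
  have hε0 : 0 < ε := by positivity
  have hε40 : ε ≤ Λ⁻¹ ^ 40 := pow_le_pow_of_le_one hi0 hi1 (by omega)
  have hε2 : ε ≤ Λ⁻¹ ^ 2 := pow_le_pow_of_le_one hi0 hi1 (by omega)
  have hε1 : ε ≤ Λ⁻¹ := by
    have := pow_le_pow_of_le_one hi0 hi1 (show 1 ≤ 40 * (D + 1) + 5 by omega)
    rwa [pow_one] at this
  have hpos : ∀ i, 0 < ‖v (p i)‖ := by
    intro i
    by_cases hi : i = 0
    · rw [hi]; exact h0
    · have h1 := hgrow 0 i (Fin.pos_of_ne_zero hi)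
      by_contra hc
      have : ‖v (p i)‖ = 0 := le_antisymm (not_lt.1 hc) (norm_nonneg _)
      rw [this, mul_zero] at h1
      linarith
  have hind := h2 D Λ (4 * (Λ * ε)) (fun i => ‖v (p i.succ)‖⁻¹ • v (p i.succ))
    (fun i => A (p i.succ) - ContinuousLinearMap.id ℝ (V D)) hD (by linarith) (by positivity)
    (by
      intro i
      have := (hpos i.succ).ne'
      rw [norm_smul, norm_inv, norm_norm, inv_mul_cancel₀ this])
    (by
      intro i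
      have l : |p i.succ| ≤ 2 * (m : ℤ) := by
        rw [abs_of_pos (hp i.succ).1]; have := (hp i.succ).1; have := (hp i.succ).2.1; omega
      calc ‖A (p i.succ) - ContinuousLinearMap.id ℝ (V D)‖
          ≤ ‖A (p i.succ)‖ + ‖ContinuousLinearMap.id ℝ (V D)‖ := norm_sub_le _ _
        _ ≤ Λ + 1 := add_le_add (hAC.bd _ l (hp i.succ).2.2) ContinuousLinearMap.norm_id_le
        _ ≤ Λ ^ 2 := by nlinarith)
    (by
      intro i j hij
      have hij' : i.succ < j.succ := Fin.succ_lt_succ_iff.2 hij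
      have c := cross hAC (p i.succ) (p j.succ) (hp _) (hp _) ((hsm _).trans hε2)
        ((hsm _).trans hε2) (by have := hsm i.succ; linarith) (by have := hsm j.succ; linarith)
      have g := hgrow _ _ hij'
      have si := hsm i.succ
      have sj := hsm j.succ
      have pi := hpos i.succ
      have pj := hpos j.succ
      set a := ‖v (p i.succ)‖
      set b := ‖v (p j.succ)‖
      have e : (A (p i.succ) - ContinuousLinearMap.id ℝ (V D)) (b⁻¹ • v (p j.succ)) =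
          b⁻¹ • (A (p i.succ) (v (p j.succ)) - v (p j.succ)) := by
        rw [map_smul]; rfl
      rw [e, norm_smul, norm_inv, Real.norm_eq_abs, abs_of_pos pj, inv_mul_le_iff₀ pj]
      refine c.trans ?_
      have t1 : (Λ + 1) * a ≤ (Λ + 1) * (ε * b) := mul_le_mul_of_nonneg_left g (by linarith)
      have hε1' : ε ≤ 1 := by linarith
      have t2 : a ^ 2 ≤ ε * b := by nlinarith
      have t3 : b ^ 2 ≤ ε * b := by nlinarith
      have t4 : Λ * (a ^ 2 + b ^ 2) ≤ Λ * (ε * b + ε * b) :=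
        mul_le_mul_of_nonneg_left (add_le_add t2 t3) hΛ0.le
      have t5 : 0 ≤ ε * b := by positivity
      nlinarith)
    (by
      intro i
      have hlt : i.castSucc < i.succ := Fin.castSucc_lt_succ
      have l := h D m Λ P v A hAC h16 hm (p i.succ) (p i.castSucc) (hp _).1 (hdec _ _ hlt)
        (hp _).2.1 (hp _).2.2 (hp _).2.2 (hpos _) ((hsm _).trans hε40)
        ((hgrow _ _ hlt).trans (mul_le_mul_of_nonneg_right hε40 (norm_nonneg _)))
      have pj := hpos i.succ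
      set b := ‖v (p i.succ)‖
      have e : (A (p i.succ) - ContinuousLinearMap.id ℝ (V D)) (b⁻¹ • v (p i.succ)) =
          b⁻¹ • (A (p i.succ) (v (p i.succ)) - v (p i.succ)) := by
        rw [map_smul]; rfl
      rw [e, norm_smul, norm_inv, Real.norm_eq_abs, abs_of_pos pj, le_inv_mul_iff₀ pj, mul_comm]
      refine le_trans ?_ l
      exact mul_le_mul_of_nonneg_right (pow_le_pow_of_le_one hi0 hi1 (by norm_num)) pj.le)
  have e1 : Λ * ε = Λ⁻¹ ^ (40 * (D + 1)) * Λ⁻¹ ^ 4 := by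
    rw [hε, pow_add, pow_succ (Λ⁻¹) 4]
    field_simp
  rw [e1] at hind
  have hX : 0 < Λ⁻¹ ^ (40 * (D + 1)) := by positivity
  have hY : Λ⁻¹ ^ 4 ≤ (1 / 16) ^ 4 := pow_le_pow_left₀ hi0 hi16 4
  have hZ := mul_le_mul_of_nonneg_left hY hX.le
  have h65 : ((1 : ℝ) / 16) ^ 4 = 1 / 65536 := by norm_num
  rw [h65] at hZ
  generalize Λ⁻¹ ^ (40 * (D + 1)) = X at *
  generalize Λ⁻¹ ^ 4 = Y at *
  linarith

end Pool.Agent.W131.SC
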